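import Pool.Agent.R612.PW.Types
import Pool.Agent.R612.PW.Succ

/-!
Monotone languages and negation-free two-variable logic on words: the answer is yes for the
signature of the order, and no for the signature of the order and the successor.
-/

set_option autoImplicit false

namespace Pool.Agent.Results.MP_eaaecb_lc.TwoVariable

open Pool.Agent.R612.PW

/-- (1) Every monotone language definable in `FO²[≤,<]` is definable in the negation-free fragment.
(2) Some monotone language over three unary predicates is definable in `FO²[≤,<,succ,nsucc]`, but
not in its negation-free fragment. -/
theorem result :
    (∀ (C : Type) [Finite C] (L : Set (List (Set C))),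
      IsMonotone L → Definable BLt L → PosDefinable BLt L) ∧
    ∃ L : Set (List (Set (Fin 3))), IsMonotone L ∧ Definable BZero L ∧ ¬ PosDefinable BZero L :=
  ⟨fun _ _ _ hL hD => posDefinable_of_monotone hL hD,
    Lang, lang_monotone, lang_definable, lang_not_posDefinable⟩

end Pool.Agent.Results.MP_eaaecb_lc.TwoVariable
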